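import Pool.Agent.X187.DP.Fin

/-!
# Weak compactness of Dyson–Phillips terms for unbounded positive perturbations

There are a substochastic `C₀`-semigroup `U` with generator `T` on an `L¹`-space (of a counting
measure) and a positive `T`-bounded `B : D(T) → L¹` with `r (B (l - T)⁻¹) < 1` for all `l > 0`,
such that the Dyson–Phillips term `U_1(t)` is compact (hence weakly compact) for every `t ≥ 0`
while `U_3(1)` is not compact. So the implication asked about fails for `n = 1`.

The example is an `ℓ¹`-direct sum over `k` of Markov chains: an Erlang clock whose stages are left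
at rate `32 (k+1)²` (the clock runs under `T`), and three `B`-jumps at the same rate, from the end
of the clock through two very short-lived states into a state killed at rate `k + 1`.
-/

set_option autoImplicit false

open Filter Topology Set MeasureTheory

namespace Pool.Agent.Results.MP_c2298c_an.NonCompactTerm

section

variable {E : Type} [NormedAddCommGroup E] [NormedSpace ℝ E]

/-- `U` (restricted to `t ≥ 0`) is a `C₀`-semigroup. -/
structure IsC0Semigroup (U : ℝ → E →L[ℝ] E) : Prop where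
  zero : ∀ x, U 0 x = x
  add : ∀ s t : ℝ, 0 ≤ s → 0 ≤ t → ∀ x, U (s + t) x = U s (U t x)
  cont : ∀ x : E, Tendsto (fun t => U t x) (𝓝[>] 0) (𝓝 x)

/-- `Gen U x y`: `x` lies in the domain `D(T)` of the generator `T` of `U`, and `T x = y`. -/
def Gen (U : ℝ → E →L[ℝ] E) (x y : E) : Prop :=
  Tendsto (fun t : ℝ => t⁻¹ • (U t x - x)) (𝓝[>] 0) (𝓝 y)

/-- `R` is the resolvent operator `(l - T)⁻¹`, `T` the generator of `U`. -/
def IsResolvent (U : ℝ → E →L[ℝ] E) (l : ℝ) (R : E →L[ℝ] E) : Prop :=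
  (∀ y, ∃ z, Gen U (R y) z ∧ l • R y - z = y) ∧ ∀ x z, Gen U x z → R (l • x - z) = x

/-- The spectral radius `lim ‖K ^ n‖ ^ (1/n)` of `K` is less than one. -/
def SpectralRadiusLtOne (K : E →L[ℝ] E) : Prop :=
  ∃ q : ℝ, 0 ≤ q ∧ q < 1 ∧ ∀ᶠ n : ℕ in atTop, ‖K ^ n‖ ≤ q ^ n

/-- The setting of the problem: `U` is a `C₀`-semigroup of positive contractions with generator
`T`, and `B` is linear, positive and `T`-bounded on `D(T)`, with `r (B (l - T)⁻¹) < 1` for all
sufficiently large real `l`. Only the values of `B` on `D(T)` are used. -/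
structure Setting [PartialOrder E] (U : ℝ → E →L[ℝ] E) (B : E → E) : Prop where
  semigroup : IsC0Semigroup U
  pos : ∀ t, 0 ≤ t → ∀ x, 0 ≤ x → 0 ≤ U t x
  contr : ∀ t, 0 ≤ t → ∀ x, ‖U t x‖ ≤ ‖x‖
  add : ∀ x y x' y', Gen U x y → Gen U x' y' → B (x + x') = B x + B x'
  smul : ∀ (a : ℝ) (x y : E), Gen U x y → B (a • x) = a • B x
  bounded : ∃ a b : ℝ, ∀ x y, Gen U x y → ‖B x‖ ≤ a * ‖x‖ + b * ‖y‖
  Bpos : ∀ x y, Gen U x y → 0 ≤ x → 0 ≤ B x
  spectral : ∃ l₀ : ℝ, ∀ l > l₀, ∃ R K : E →L[ℝ] E,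
    IsResolvent U l R ∧ (∀ y, K y = B (R y)) ∧ SpectralRadiusLtOne K

/-- `W j t` (`t ≥ 0`) are the Dyson–Phillips terms `U_j(t)` of `U` and `B`: bounded operators with
`W 0 t = U t` and `W (j+1) t φ = ∫₀ᵗ W j (t-s) B U(s) φ ds` for `φ` in `D(T)`. -/
def IsDysonPhillips (U : ℝ → E →L[ℝ] E) (B : E → E) (W : ℕ → ℝ → E →L[ℝ] E) : Prop :=
  (∀ t, 0 ≤ t → W 0 t = U t) ∧ ∀ j t, 0 ≤ t → ∀ φ y, Gen U φ y →
    IntervalIntegrable (fun s => W j (t - s) (B (U s φ))) volume 0 t ∧
    W (j + 1) t φ = ∫ s in (0 : ℝ)..t, W j (t - s) (B (U s φ))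

/-- `A` maps bounded sets to relatively weakly compact sets. -/
def WeaklyCompactOp (A : E →L[ℝ] E) : Prop :=
  ∀ s : Set E, Bornology.IsBounded s → IsCompact (closure (toWeakSpace ℝ E '' (A '' s)))

variable (E) in
/-- On the space `E` there are `U`, `B` as in the setting whose Dyson–Phillips terms `W j = U_j`
satisfy: `U_1(t)` is weakly compact, and even compact, for every `t ≥ 0`, but `U_3(1)` is not
compact. -/
def CompactnessFails [PartialOrder E] : Prop :=
  ∃ (U : ℝ → E →L[ℝ] E) (B : E → E) (W : ℕ → ℝ → E →L[ℝ] E),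
    Setting U B ∧ IsDysonPhillips U B W ∧
      (∀ t, 0 ≤ t → WeaklyCompactOp (W 1 t) ∧ IsCompactOperator (W 1 t)) ∧
      ¬ IsCompactOperator (W 3 1)

end

/-- **Negative answer.** The implication fails for `n = 1` on some `L¹(ν)`. -/
theorem result : ∃ (Ω : Type) (_ : MeasurableSpace Ω) (ν : Measure Ω),
    CompactnessFails (Lp ℝ 1 ν) := by
  obtain ⟨Ω, mΩ, ν, U, B, W, hs, hd, h1, h3⟩ := Pool.Agent.X187.DP.main
  refine ⟨Ω, mΩ, ν, U, B, W, ?_, hd, fun t ht => ⟨(h1 t ht).2, (h1 t ht).1⟩, h3⟩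
  exact
    { semigroup := ⟨hs.semigroup.zero, hs.semigroup.add, hs.semigroup.cont⟩
      pos := hs.pos
      contr := hs.contr
      add := hs.add
      smul := hs.smul
      bounded := hs.bounded
      Bpos := hs.Bpos
      spectral := hs.spectral }

end Pool.Agent.Results.MP_c2298c_an.NonCompactTerm
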